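import Pool.Agent.E8helper11.GS.Stm

set_option autoImplicit false

open Filter Topology
open scoped Classical
open Pool.Agent.E8helper11.GS

namespace Pool.Agent.E8helper99.GS

/-- the slow function -/
noncomputable def hh (f : ℕ → ℝ) (k : ℕ) : ℕ :=
  Nat.findGreatest (fun r => ∀ n ≥ k, 3 * (r : ℝ) ≤ f n) (k / 8)

lemma hh_le (f : ℕ → ℝ) (k : ℕ) : hh f k ≤ k / 8 := Nat.findGreatest_le _

lemma hh_tendsto (f : ℕ → ℝ) (hf : Tendsto f atTop atTop) (r : ℕ) :
    ∀ᶠ k : ℕ in atTop, r ≤ hh f k := by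
  have h1 := (hf.eventually_ge_atTop (3 * (r : ℝ)))
  obtain ⟨N, hN⟩ := eventually_atTop.1 h1
  filter_upwards [eventually_ge_atTop N, eventually_ge_atTop (8 * r)] with k hk hk2
  refine Nat.le_findGreatest ?_ ?_
  · omega
  · intro n hn
    exact hN n (le_trans hk hn)

lemma hh_spec (f : ℕ → ℝ) (k : ℕ) (h : 1 ≤ hh f k) : ∀ n ≥ k, 3 * (hh f k : ℝ) ≤ f n := by
  have := @Nat.findGreatest_of_ne_zero (hh f k) (fun r => ∀ n ≥ k, 3 * (r : ℝ) ≤ f n) _ (k / 8)
    rfl (by omega)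
  exact this

noncomputable def m0 (f : ℕ → ℝ) (k : ℕ) : ℕ := k ^ 4 + 4 ^ (k / hh f k)

lemma sub0 (f : ℕ → ℝ) (hf : Tendsto f atTop atTop) : Sub (m0 f) := by
  intro δ hδ
  obtain ⟨r, hr⟩ := exists_nat_gt (2 / δ)
  have hr0 : (0 : ℝ) < r := lt_trans (by positivity) hr
  have hbase : (1 : ℝ) < (4 : ℝ) ^ (δ / 2) := Real.one_lt_rpow (by norm_num) (by positivity)
  have h1 := tendsto_pow_const_div_const_pow_of_one_lt 4 hbase
  have h2 : ∀ᶠ k : ℕ in atTop, ((k : ℝ) ^ 4 / ((4 : ℝ) ^ (δ / 2)) ^ k) < 1 :=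
    h1.eventually_lt_const (by norm_num)
  have h3 : ∀ᶠ k : ℕ in atTop, (2 : ℝ) ≤ ((4 : ℝ) ^ (δ / 2)) ^ k :=
    (tendsto_pow_atTop_atTop_of_one_lt hbase).eventually_ge_atTop 2
  filter_upwards [h2, h3, hh_tendsto f hf r] with k hk2 hk3 hk4
  have hpos : (0 : ℝ) < ((4 : ℝ) ^ (δ / 2)) ^ k := by positivity
  have e1 : (k : ℝ) ^ 4 ≤ ((4 : ℝ) ^ (δ / 2)) ^ k := by
    rw [div_lt_one hpos] at hk2
    exact hk2.le
  have hrn : 0 < r := by exact_mod_cast hr0
  have e2 : ((4 : ℝ) ^ (k / hh f k)) ≤ ((4 : ℝ) ^ (δ / 2)) ^ k := by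
    rw [← Real.rpow_natCast (4 : ℝ), ← Real.rpow_natCast ((4 : ℝ) ^ (δ / 2)), ← Real.rpow_mul (by norm_num)]
    apply Real.rpow_le_rpow_of_exponent_le (by norm_num)
    have e3 : ((k / hh f k : ℕ) : ℝ) ≤ (k : ℝ) / (hh f k : ℝ) := Nat.cast_div_le
    have e4 : (k : ℝ) / (hh f k : ℝ) ≤ (k : ℝ) / r := by
      apply div_le_div_of_nonneg_left (by positivity) hr0
      exact_mod_cast hk4
    have e5 : (k : ℝ) / r ≤ δ / 2 * k := by
      rw [div_le_iff₀ hr0]
      have : 1 ≤ δ / 2 * r := by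
        rw [div_lt_iff₀ hδ] at hr
        linarith
      nlinarith [(Nat.cast_nonneg k : (0 : ℝ) ≤ k)]
    linarith
  have e6 : (4 : ℝ) ^ (δ * k) = ((4 : ℝ) ^ (δ / 2)) ^ k * ((4 : ℝ) ^ (δ / 2)) ^ k := by
    rw [← Real.rpow_natCast ((4 : ℝ) ^ (δ / 2)), ← Real.rpow_mul (by norm_num), ← Real.rpow_add (by norm_num)]
    congr 1
    ring
  rw [e6]
  unfold m0
  push_cast
  nlinarith

theorem t_GROW : S_GROW := by
  intro hPR f hf
  obtain ⟨k1, hk1⟩ := hPR
  have hS := sub0 f hf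
  have h2 : ∀ᶠ k : ℕ in atTop, 4 * ((k : ℝ) + 1) ≤ (2 : ℝ) ^ k := by
    filter_upwards [eventually_ge_atTop 5] with k hk
    induction k, hk using Nat.le_induction with
    | base => norm_num
    | succ n hn ih =>
      have : (5 : ℝ) ≤ n := by exact_mod_cast hn
      push_cast
      rw [pow_succ]
      linarith
  have h3 : ∀ᶠ k : ℕ in atTop, 2 * m0 f k ≤ (Cb k).card := by
    filter_upwards [hS (1 / 2) (by norm_num), h2, eventually_ge_atTop k1] with k a1 a2 a3
    have a4 := hk1 k a3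
    have e1 : (4 : ℝ) ^ ((1 / 2 : ℝ) * k) = 2 ^ k := by
      rw [Real.rpow_mul (by norm_num)]
      have : (4 : ℝ) ^ (1 / 2 : ℝ) = 2 := by
        rw [show (4 : ℝ) = 2 ^ (2 : ℝ) by norm_num, ← Real.rpow_mul (by norm_num)]
        norm_num
      rw [this, Real.rpow_natCast]
    rw [e1] at a1
    have e2 : (4 : ℝ) ^ k = 2 ^ k * 2 ^ k := by
      rw [← mul_pow]; norm_num
    rw [e2] at a4
    have hk0 : (0 : ℝ) < (k : ℝ) + 1 := by positivity
    have e3 : (2 : ℝ) ^ k * (4 * ((k : ℝ) + 1)) ≤ 2 ^ k * 2 ^ k :=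
      mul_le_mul_of_nonneg_left a2 (by positivity)
    have e4 : ((k : ℝ) + 1) * (2 * (2 : ℝ) ^ k) ≤ ((k : ℝ) + 1) * (Cb k).card := by linarith
    have e5 : 2 * (2 : ℝ) ^ k ≤ (Cb k).card := le_of_mul_le_mul_left e4 hk0
    have e6 : (2 : ℝ) * (m0 f k : ℝ) ≤ (Cb k).card := by linarith
    exact_mod_cast e6
  obtain ⟨K, hK⟩ := eventually_atTop.1 h3
  refine ⟨fun k => if k < K then 0 else m0 f k, ?_, ?_, ?_, ?_⟩
  · intro k
    dsimp only
    split_ifs with h
    · simp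
    · exact hK k (by omega)
  · intro δ hδ
    filter_upwards [hS δ hδ, eventually_ge_atTop K] with k a1 a2
    rw [if_neg (by omega)]
    exact a1
  · change ∀ᶠ k : ℕ in atTop, _
    filter_upwards [eventually_ge_atTop K] with k a2
    rw [if_neg (by omega)]
    exact Nat.le_add_right _ _
  · filter_upwards [eventually_ge_atTop (K + 2), (tendsto_sub_atTop_nat 1).eventually (hh_tendsto f hf 1)] with k a1 a2 n hn
    have b1 : m0 f (k - 1) ≤ n := by
      refine le_trans ?_ hn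
      unfold Ms
      refine le_trans ?_ (Finset.single_le_sum (f := fun i => if i < K then 0 else m0 f i)
        (fun _ _ => Nat.zero_le _) (Finset.mem_range.2 (show k - 1 < k by omega)))
      rw [if_neg (by omega)]
    set p := k - 1 with hp
    set h := hh f p with hh0
    have b2 : p ≤ n := by
      refine le_trans ?_ b1
      have : p ≤ p ^ 4 := Nat.le_self_pow (by norm_num) p
      exact this.trans (Nat.le_add_right _ _)
    have b3 : 3 * (h : ℝ) ≤ f n := hh_spec f p a2 n b2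
    have b4 : 4 ^ (p / h) ≤ n := by
      refine le_trans ?_ b1
      exact Nat.le_add_left _ _
    have b5 : h ≤ p / 8 := hh_le f p
    have b6 : p < h * (p / h + 1) := by
      have := Nat.lt_mul_div_succ p (show 0 < h by omega)
      exact this
    have b7 : (k : ℝ) + 1 ≤ ((p / h : ℕ) : ℝ) * (3 * h) := by
      have : k + 1 ≤ (p / h) * (3 * h) := by
        have c1 : h * (p / h + 1) = h * (p / h) + h := by ring
        have c2 : (p / h) * (3 * h) = 3 * (h * (p / h)) := by ring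
        rw [c2]
        rw [c1] at b6
        omega
      exact_mod_cast this
    have hn1 : (1 : ℝ) ≤ n := by
      have : 1 ≤ 4 ^ (p / h) := Nat.one_le_pow _ _ (by norm_num)
      exact_mod_cast le_trans this b4
    calc (4 : ℝ) ^ (k + 1) = (4 : ℝ) ^ ((k : ℝ) + 1) := by
          rw [← Real.rpow_natCast]; push_cast; rfl
      _ ≤ (4 : ℝ) ^ (((p / h : ℕ) : ℝ) * (3 * h)) :=
          Real.rpow_le_rpow_of_exponent_le (by norm_num) b7
      _ = ((4 : ℝ) ^ (p / h)) ^ (3 * (h : ℝ)) := by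
          rw [Real.rpow_mul (by norm_num), Real.rpow_natCast]
      _ ≤ (n : ℝ) ^ (3 * (h : ℝ)) := by
          apply Real.rpow_le_rpow (by positivity) _ (by positivity)
          exact_mod_cast b4
      _ ≤ (n : ℝ) ^ (f n) := Real.rpow_le_rpow_of_exponent_le hn1 b3

end Pool.Agent.E8helper99.GS
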