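import Pool.Agent.E8helper11.GS.Stm

set_option autoImplicit false

open Filter Topology
open scoped Classical
open Pool.Agent.E8helper11.GS

namespace Pool.Agent.E8helper99.GS

open N0ef6d136

theorem t_HITS : S_HITS := by
  intro hCNT hREG m u B hu h2 hB hi hPos hSub hLo hPot hlam hT δ0 hδ0
  choose κ hκ using hi
  set δ : ℝ := min δ0 1 with hδ
  have hδp : 0 < δ := lt_min hδ0 one_pos
  have hδ1 : δ ≤ 1 := min_le_right _ _
  have hδle : δ ≤ δ0 := min_le_left _ _
  set ε : ℝ := δ / 8 with hε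
  have hεp : 0 < ε := by positivity
  obtain ⟨k0, hk0⟩ := eventually_atTop.1 (hlam ε hεp)
  -- growth
  have hr : (1 : ℝ) < (4 : ℝ) ^ ε := Real.one_lt_rpow (by norm_num) hεp
  set r : ℝ := (4 : ℝ) ^ ε with hrdef
  have hrp : 0 < r := by linarith
  have g1 : ∀ᶠ j : ℕ in atTop, ((j : ℝ) ^ 2 / r ^ j) < 1 / (60 * r) :=
    (tendsto_pow_const_div_const_pow_of_one_lt 2 hr).eventually_lt_const (by positivity)
  filter_upwards [g1, hT (4 / δ), eventually_gt_atTop ((Ms m k0) ^ 2), eventually_ge_atTop 1]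
    with j a1 a2 a3 a4 x hx1 hx2 a ha H hH
  have hj1 : (1 : ℝ) ≤ j := by exact_mod_cast a4
  have htx : 4 / δ ≤ (t u x : ℝ) := by
    refine le_trans ?_ (a2 x hx1)
    have : (1 : ℝ) ≤ Real.sqrt j := Real.one_le_sqrt.2 hj1
    have h4 : 0 < 4 / δ := by positivity
    nlinarith
  have hxpos : 1 ≤ x := by
    have : 1 ≤ 4 ^ j := Nat.one_le_pow _ _ (by norm_num)
    rcases Nat.eq_zero_or_pos x with h | h
    · subst h; omega
    · exact h
  -- the blocks
  have hmem : ∀ i, 4 ^ (κ i) ≤ u i ∧ u i < 4 ^ (κ i + 1) := by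
    intro i
    have := hB (κ i) (hκ i)
    unfold Cb at this
    rw [Finset.mem_filter, Finset.mem_Ico] at this
    exact this.1
  have hMs : ∀ i ∈ H, j < (Ms m (κ i + 1)) ^ 2 := by
    intro i hi
    have e1 : i < Ms m (κ i + 1) := (hPos i (κ i + 1)).1 (hmem i).2
    have e2 := (hH i hi).1
    have e3 : i ^ 2 < (Ms m (κ i + 1)) ^ 2 := Nat.pow_lt_pow_left e1 (by norm_num)
    omega
  have hκ0 : ∀ i ∈ H, k0 ≤ κ i := by
    intro i hi
    have e2 := (hH i hi).1
    have e3 : Ms m k0 < i := by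
      by_contra hcon
      push Not at hcon
      have := Nat.pow_le_pow_left hcon 2
      omega
    have e4 : ¬ u i < 4 ^ k0 := fun h => by
      have := (hPos i k0).1 h
      omega
    by_contra hcon
    push Not at hcon
    apply e4
    refine lt_of_lt_of_le (hmem i).2 ?_
    exact Nat.pow_le_pow_right (by norm_num) hcon
  have hlam0 : ∀ k, 0 ≤ lam m k := by
    intro k
    unfold lam
    positivity
  set K := H.sup κ + 1 with hK
  have hKlt : ∀ i ∈ H, κ i < K := by
    intro i hi
    have := Finset.le_sup (f := κ) hi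
    omega
  have p1 : ∏ i ∈ H, (1 + lam m (κ i)) ≤ 15 * (4 : ℝ) ^ j * (j : ℝ) ^ 2 := by
    refine le_trans ?_ (hPot j a K a4 ha)
    rw [← Finset.prod_fiberwise_of_maps_to (s := H) (t := Finset.range K) (g := κ)
      (fun i hi => Finset.mem_range.2 (hKlt i hi))]
    apply Finset.prod_le_prod
    · intro k _
      exact Finset.prod_nonneg fun i _ => by linarith [hlam0 (κ i)]
    · intro k hk
      have e1 : ∏ i ∈ H with κ i = k, (1 + lam m (κ i)) =
          (1 + lam m k) ^ (H.filter (fun i => κ i = k)).card := by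
        rw [← Finset.prod_const]
        exact Finset.prod_congr rfl fun i hi => by rw [(Finset.mem_filter.1 hi).2]
      rw [e1]
      split_ifs with hc
      · apply pow_le_pow_right₀ (by linarith [hlam0 k])
        apply Finset.card_le_card_of_injOn u
        · intro i hi
          have hi' := Finset.mem_filter.1 hi
          have := hκ i
          rw [hi'.2] at this
          exact Finset.mem_coe.2 (Finset.mem_filter.2 ⟨this, (hH i hi'.1).2⟩)
        · exact hu.injective.injOn
      · have : H.filter (fun i => κ i = k) = ∅ := by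
          apply Finset.filter_eq_empty_iff.2
          intro i hi he
          have := hMs i hi
          rw [he] at this
          exact hc this
        rw [this]
        simp
  have hup : ∀ i, (0 : ℝ) < u i := fun i => by
    have := h2 i
    have : (2 : ℝ) ≤ u i := by exact_mod_cast this
    linarith
  have p2 : ∀ i ∈ H, (1 - ε) * Real.log (u i) ≤ Real.log (1 + lam m (κ i)) := by
    intro i hi
    have e1 := hk0 (κ i) (hκ0 i hi)
    have e2 : (u i : ℝ) ≤ (4 : ℝ) ^ (κ i + 1) := by exact_mod_cast (hmem i).2.le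
    have e3 := Real.log_le_log (hup i) e2
    rw [Real.log_pow] at e3
    have e4 := Real.log_le_log (by positivity) e1
    rw [Real.log_rpow (by norm_num)] at e4
    push_cast at e3
    have e5 : 0 ≤ 1 - ε := by
      rw [hε]; linarith
    calc (1 - ε) * Real.log (u i) ≤ (1 - ε) * (((κ i : ℝ) + 1) * Real.log 4) :=
          mul_le_mul_of_nonneg_left e3 e5
      _ = (1 - ε) * ((κ i : ℝ) + 1) * Real.log 4 := by ring
      _ ≤ _ := e4
  set y : ℕ := ∏ i ∈ H, u i with hy
  have p3 : (1 - ε) * Real.log y ≤ Real.log (15 * (4 : ℝ) ^ j * (j : ℝ) ^ 2) := by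
    have e1 : Real.log y = ∑ i ∈ H, Real.log (u i) := by
      rw [hy]
      push_cast
      exact Real.log_prod (fun i _ => (hup i).ne')
    rw [e1, Finset.mul_sum]
    refine (Finset.sum_le_sum p2).trans ?_
    rw [← Real.log_prod (fun i _ => by linarith [hlam0 (κ i)])]
    apply Real.log_le_log _ p1
    exact Finset.prod_pos fun i _ => by linarith [hlam0 (κ i)]
  have hx0 : (0 : ℝ) < x := by exact_mod_cast hxpos
  have hx1' : (4 : ℝ) ^ j ≤ 4 * x := by exact_mod_cast hx1
  have p4 : Real.log (15 * (4 : ℝ) ^ j * (j : ℝ) ^ 2) ≤ (1 + ε) * Real.log x := by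
    have e0 : (0 : ℝ) < r ^ j := by positivity
    have e1 : 60 * (j : ℝ) ^ 2 * r ≤ r ^ j := by
      rw [div_lt_div_iff₀ e0 (by positivity)] at a1
      linarith
    have e2 : r ^ j ≤ r * (x : ℝ) ^ ε := by
      have : r ^ j = ((4 : ℝ) ^ j) ^ ε := by
        rw [hrdef, ← Real.rpow_natCast, ← Real.rpow_mul (by norm_num), ← Real.rpow_natCast (4 : ℝ) j,
          ← Real.rpow_mul (by norm_num)]
        congr 1
        ring
      rw [this, hrdef, ← Real.mul_rpow (by norm_num) hx0.le]
      exact Real.rpow_le_rpow (by positivity) hx1' hεp.le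
    have e3 : 60 * (j : ℝ) ^ 2 ≤ (x : ℝ) ^ ε := by
      have : r * (60 * (j : ℝ) ^ 2) ≤ r * (x : ℝ) ^ ε := by linarith
      exact le_of_mul_le_mul_left this hrp
    have e4 : 15 * (4 : ℝ) ^ j * (j : ℝ) ^ 2 ≤ (x : ℝ) ^ ε * x := by
      have e5 : 15 * (4 : ℝ) ^ j * (j : ℝ) ^ 2 ≤ 15 * (4 * x) * (j : ℝ) ^ 2 := by
        apply mul_le_mul_of_nonneg_right _ (by positivity)
        linarith
      have e6 : 15 * (4 * x) * (j : ℝ) ^ 2 = 60 * (j : ℝ) ^ 2 * x := by ring
      rw [e6] at e5
      exact e5.trans (mul_le_mul_of_nonneg_right e3 hx0.le)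
    have e7 := Real.log_le_log (by positivity) e4
    rw [Real.log_mul (by positivity) hx0.ne', Real.log_rpow hx0] at e7
    linarith
  have hlx : 0 ≤ Real.log x := Real.log_nonneg (by exact_mod_cast hxpos)
  have hly : 0 ≤ Real.log y := Real.log_natCast_nonneg y
  have p5 : Real.log y ≤ (1 + 4 * ε) * Real.log x := by
    have e1 := p3.trans p4
    have e2 : 0 < 1 - ε := by rw [hε]; linarith
    have e3 : (1 + ε) ≤ (1 - ε) * (1 + 4 * ε) := by
      have : ε ≤ 1 / 8 := by rw [hε]; linarith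
      nlinarith
    have e4 : (1 - ε) * Real.log y ≤ (1 - ε) * ((1 + 4 * ε) * Real.log x) := by
      calc _ ≤ (1 + ε) * Real.log x := e1
        _ ≤ ((1 - ε) * (1 + 4 * ε)) * Real.log x := mul_le_mul_of_nonneg_right e3 hlx
        _ = _ := by ring
    exact le_of_mul_le_mul_left e4 e2
  have q1 := hCNT u hu h2 H y le_rfl
  have q2 := hREG u hu h2 x y (4 * ε) (by positivity) hxpos p5
  have q3 : (H.card : ℝ) ≤ (t u y : ℝ) := by exact_mod_cast q1
  have q4 : (1 + 4 * ε) * ((t u x : ℝ) + 1) ≤ (1 + δ0) * (t u x : ℝ) := by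
    have e1 : 4 ≤ (t u x : ℝ) * δ := by
      rw [div_le_iff₀ hδp] at htx
      exact htx
    have e2 : (0 : ℝ) ≤ (t u x : ℝ) := Nat.cast_nonneg _
    have e3 : 4 * ε = δ / 2 := by rw [hε]; ring
    rw [e3]
    nlinarith
  linarith

end Pool.Agent.E8helper99.GS
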